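import Pool.Agent.Lib.MP_2d136f_lc.Echo

/-!
Ordered formulas in which every index occurs in a bounded number of clauses.
-/

set_option autoImplicit false

namespace Pool.Agent.Lib.MP_2d136f_lc.BD

open Function Pool.Agent.Shared.PolyTime

/-- The place of a variable among the `2 n` variables. -/
def slot (n : ℕ) (l : PL) : ℕ := bif l.2.1 then n + l.2.2 else l.2.2

/-- The variable copied by the copy number `z`, with sign `b`. -/
def src (n z : ℕ) (b : Bool) : PL :=
  (b, Nat.ble n z && Nat.blt z (2 * n), bif Nat.blt z n then z else z - n)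

/-- The copy number `z` equals its source. -/
def link (n z : ℕ) : List PC :=
  [((false, false, n + z), (false, false, n + z), src n z true),
   ((true, false, n + z), (true, false, n + z), src n z false)]

/-- A literal moved to layer `k`. -/
def tl (n k : ℕ) (l : PL) : PL := (l.1, false, n + (k * (2 * n) + slot n l))

/-- A default clause. -/
def dc : PC := ((false, false, 0), (false, false, 0), (false, false, 0))

/-- Clause number `k` on its own layer of copies. -/
def tc (n k : ℕ) (c : PC) : PC := (tl n k c.1, tl n k c.2.1, tl n k c.2.2)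

/-- The formula with one layer of copies per clause. -/
def copy (n : ℕ) (ψ : List PC) : List PC :=
  (List.range (ψ.length * (2 * n))).flatMap (link n) ++
    (List.range ψ.length).flatMap fun k => [tc n k (ψ.getD k dc)]

theorem copy_pf : PF fun p : ℕ × List PC => copy p.1 p.2 := by
  unfold copy link tc tl src slot dc
  fun_prop

theorem mem_copy {n : ℕ} {ψ : List PC} {c : PC} : c ∈ copy n ψ ↔
    (∃ z < ψ.length * (2 * n), c ∈ link n z) ∨ ∃ k < ψ.length, c = tc n k (ψ.getD k dc) := by
  simp only [copy, List.mem_append, List.mem_flatMap, List.mem_range, List.mem_singleton]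

theorem getD_mem {ψ : List PC} {k : ℕ} (hk : k < ψ.length) : ψ.getD k dc ∈ ψ := by
  rw [List.getD_eq_getElem _ _ hk]
  exact List.getElem_mem hk

theorem slot_lt {n : ℕ} {l : PL} (h : l.2.2 < n) : slot n l < 2 * n := by
  obtain ⟨s, _ | _, g⟩ := l <;> simp only [slot, cond_true, cond_false] at h ⊢ <;> omega

theorem layer_lt {n k m t : ℕ} (hk : k < m) (ht : t < 2 * n) : k * (2 * n) + t < m * (2 * n) := by
  have := Nat.mul_le_mul_right (2 * n) (Nat.succ_le_of_lt hk)
  rw [Nat.succ_mul] at this
  omega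

theorem src_idx (n z : ℕ) (b : Bool) : (src n z b).2.2 = if z < n then z else z - n := by
  simp [src, Nat.blt_eq]

theorem bdd_copy {n : ℕ} {ψ : List PC} (h : Bdd n ψ) :
    Bdd (n + ψ.length * (2 * n)) (copy n ψ) := by
  intro c hc
  rcases mem_copy.1 hc with ⟨z, hz, h1⟩ | ⟨k, hk, rfl⟩
  · simp only [link, List.mem_cons, List.not_mem_nil, or_false] at h1
    rcases h1 with rfl | rfl <;> simp only [src_idx] <;> split_ifs <;> omega
  · obtain ⟨b1, b2, b3⟩ := h _ (getD_mem hk)
    have c1 := layer_lt hk (slot_lt b1)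
    have c2 := layer_lt hk (slot_lt b2)
    have c3 := layer_lt hk (slot_lt b3)
    simp only [tc, tl]
    omega

/-- The value of the variable in place `t`. -/
def val (n : ℕ) (ξ ζ : ℕ → Bool) (t : ℕ) : Bool := if t < n then ξ t else ζ (t - n)

theorem lt_val {n : ℕ} {ξ ζ : ℕ → Bool} {l : PL} (h : l.2.2 < n) :
    LT ξ ζ l ↔ val n ξ ζ (slot n l) = l.1 := by
  obtain ⟨s, _ | _, g⟩ := l
  · simp only at h
    simp [LT, val, slot, h]
  · simp [LT, val, slot]

theorem link_iff (n z : ℕ) (ξ ζ : ℕ → Bool) : (∀ c ∈ link n z, CT ξ ζ c) ↔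
    ξ (n + z) = if z < 2 * n then val n ξ ζ z else ξ (z - n) := by
  have e : ∀ b, LT ξ ζ (src n z b) ↔ (if z < 2 * n then val n ξ ζ z else ξ (z - n)) = b := by
    intro b
    unfold LT
    rw [src_idx]
    by_cases h1 : z < n
    · have e1 : Nat.ble n z = false := by
        rw [← Bool.not_eq_true, Nat.ble_eq]
        omega
      simp [src, val, e1, h1, show z < 2 * n by omega]
    · have e1 : Nat.ble n z = true := by
        rw [Nat.ble_eq]
        omega
      by_cases h2 : z < 2 * n
      · have e2 : Nat.blt z (2 * n) = true := by rwa [Nat.blt_eq]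
        simp [src, val, e1, e2, h1, h2]
      · have e2 : Nat.blt z (2 * n) = false := by rwa [← Bool.not_eq_true, Nat.blt_eq]
        simp [src, e2, h1, h2]
  simp only [link, List.forall_mem_cons, CT, e, List.not_mem_nil, false_imp_iff, implies_true,
    and_true]
  generalize (if z < 2 * n then val n ξ ζ z else ξ (z - n)) = y
  simp only [LT, cond_false]
  cases ξ (n + z) <;> cases y <;> simp

theorem ct_tc {n k : ℕ} {ξ ζ ξ' : ℕ → Bool} {c : PC}
    (hb : c.1.2.2 < n ∧ c.2.1.2.2 < n ∧ c.2.2.2.2 < n)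
    (h : ∀ t < 2 * n, ξ' (n + (k * (2 * n) + t)) = val n ξ ζ t) :
    CT ξ' ζ (tc n k c) ↔ CT ξ ζ c := by
  have e : ∀ l : PL, l.2.2 < n → (LT ξ' ζ (tl n k l) ↔ LT ξ ζ l) := by
    intro l hl
    rw [lt_val hl, ← h _ (slot_lt hl)]
    rfl
  simp only [CT, tc, e _ hb.1, e _ hb.2.1, e _ hb.2.2]

theorem mod_layer {n k t : ℕ} (ht : t < 2 * n) : (k * (2 * n) + t) % (2 * n) = t := by
  rw [add_comm, Nat.add_mul_mod_self_right, Nat.mod_eq_of_lt ht]

theorem wform_copy {n : ℕ} {ψ : List PC} (hb : Bdd n ψ) (h : WForm ψ) : WForm (copy n ψ) := by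
  by_cases e0 : n = 0
  · subst e0
    refine ⟨fun _ _ => false, fun _ _ _ _ => rfl, fun ζ c hc => ?_⟩
    rcases mem_copy.1 hc with ⟨z, hz, -⟩ | ⟨k, hk, -⟩
    · simp at hz
    · exact absurd (hb _ (getD_mem hk)).1 (by omega)
  obtain ⟨τ, h1, h2⟩ := h
  refine ⟨fun ζ g => if g < n then τ ζ g else val n (τ ζ) ζ ((g - n) % (2 * n)),
    fun ζ ζ' g hg => ?_, fun ζ c hc => ?_⟩
  · by_cases e : g < n
    · simp only [e, if_true]
      exact h1 _ _ _ hg
    · simp only [e, if_false, val]
      have := Nat.mod_lt (g - n) (show 0 < 2 * n by omega)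
      split_ifs with e'
      · exact h1 _ _ _ fun i hi => hg _ (by omega)
      · exact hg _ (by omega)
  · rcases mem_copy.1 hc with ⟨z, hz, h3⟩ | ⟨k, hk, rfl⟩
    · refine (link_iff n z _ ζ).2 ?_ c h3
      beta_reduce
      rw [if_neg (by omega), Nat.add_sub_cancel_left]
      by_cases e : z < 2 * n
      · rw [if_pos e, Nat.mod_eq_of_lt e]
        unfold val
        by_cases e' : z < n
        · simp only [e', if_true]
        · simp only [e', if_false]
      · rw [if_neg e, if_neg (by omega), Nat.mod_eq_sub_mod (by omega),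
          show z - n - n = z - 2 * n by omega]
    · refine (ct_tc (ξ := τ ζ) (hb _ (getD_mem hk)) fun t ht => ?_).2 (h2 ζ _ (getD_mem hk))
      beta_reduce
      rw [if_neg (by omega), Nat.add_sub_cancel_left, mod_layer ht]

theorem sform_copy {n : ℕ} {ψ : List PC} (hb : Bdd n ψ) (h : SForm ψ) : SForm (copy n ψ) := by
  obtain ⟨σ, h1, h2⟩ := h
  refine ⟨σ, h1, fun ξ => ?_⟩
  by_contra hc
  push Not at hc
  have key : ∀ z < ψ.length * (2 * n), ξ (n + z) = val n ξ (σ ξ) (z % (2 * n)) := by
    intro z
    induction z using Nat.strong_induction_on with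
    | _ z ih =>
    intro hz
    rw [(link_iff n z ξ (σ ξ)).1 fun c h => hc c (mem_copy.2 (Or.inl ⟨z, hz, h⟩))]
    by_cases e : z < 2 * n
    · rw [if_pos e, Nat.mod_eq_of_lt e]
    · have e0 : n ≠ 0 := by
        rintro rfl
        simp at hz
      rw [if_neg e, Nat.mod_eq_sub_mod (by omega), ← ih _ (by omega) (by omega),
        show n + (z - 2 * n) = z - n by omega]
  obtain ⟨c, a1, a2⟩ := h2 ξ
  obtain ⟨k, hk, rfl⟩ := List.getElem_of_mem a1
  rw [← List.getD_eq_getElem _ dc hk] at a2
  refine a2 ((ct_tc (k := k) (ξ' := ξ) (hb _ (getD_mem hk)) fun t ht => ?_).1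
    (hc _ (mem_copy.2 (Or.inr ⟨k, hk, rfl⟩))))
  rw [key _ (layer_lt hk ht), mod_layer ht]

/-- The clause mentions the index. -/
def ment (g : ℕ) (c : PC) : Bool := c.1.2.2 == g || c.2.1.2.2 == g || c.2.2.2.2 == g

theorem countP_flat {α β : Type} (p : β → Bool) (q : α → Bool) (f : α → List β) (c : ℕ) :
    ∀ l : List α, (∀ a ∈ l, (f a).length ≤ c) → (∀ a ∈ l, ∀ x ∈ f a, p x = true → q a = true) →
      (l.flatMap f).countP p ≤ c * l.countP q
  | [], _, _ => by simp
  | a :: l, h1, h2 => by
    have ih := countP_flat p q f c l (fun b hb => h1 b (List.mem_cons_of_mem _ hb))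
      fun b hb => h2 b (List.mem_cons_of_mem _ hb)
    rw [List.flatMap_cons, List.countP_append, List.countP_cons]
    by_cases e : q a = true
    · have := (List.countP_le_length (p := p) (l := f a)).trans (h1 a List.mem_cons_self)
      rw [if_pos e, Nat.mul_add]
      omega
    · have : (f a).countP p = 0 :=
        List.countP_eq_zero.2 fun x hx h => e (h2 a List.mem_cons_self x hx h)
      rw [if_neg e, Nat.add_zero]
      omega

theorem countP_range {β : Type} (p : β → Bool) (f : ℕ → List β) (c m : ℕ) (J : List ℕ)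
    (h1 : ∀ a < m, (f a).length ≤ c) (h2 : ∀ a < m, ∀ x ∈ f a, p x = true → a ∈ J) :
    ((List.range m).flatMap f).countP p ≤ c * J.length := by
  refine (countP_flat p (fun a => decide (a ∈ J)) f c _ (fun a ha => h1 a (List.mem_range.1 ha))
    fun a ha x hx h => by simpa using h2 a (List.mem_range.1 ha) x hx h).trans
    (Nat.mul_le_mul_left _ ?_)
  rw [List.countP_eq_length_filter]
  exact ((List.nodup_range.filter _).subperm fun x hx => by
    simpa using (List.mem_filter.1 hx).2).length_le

theorem count_copy {n : ℕ} {ψ : List PC} (hb : Bdd n ψ) (g : ℕ) :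
    (copy n ψ).countP (ment g) ≤ 7 := by
  have h1 := countP_range (ment g) (link n) 2 (ψ.length * (2 * n)) [g - n, g, g + n]
    (fun _ _ => le_rfl) fun z _ c hc h => by
      simp only [link, List.mem_cons, List.not_mem_nil, or_false] at hc ⊢
      rcases hc with rfl | rfl <;>
        simp only [ment, src_idx, Bool.or_eq_true, beq_iff_eq] at h <;> split_ifs at h <;> omega
  have h2 := countP_range (ment g) (fun k => [tc n k (ψ.getD k dc)]) 1 ψ.length
    [(g - n) / (2 * n)] (fun _ _ => le_rfl) fun k hk c hc h => by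
      rw [List.mem_singleton] at hc ⊢
      subst hc
      obtain ⟨b1, b2, b3⟩ := hb _ (getD_mem hk)
      have key : ∀ t < 2 * n, n + (k * (2 * n) + t) = g → k = (g - n) / (2 * n) := by
        rintro t ht rfl
        rw [Nat.add_sub_cancel_left, add_comm, Nat.add_mul_div_right _ _ (by omega),
          Nat.div_eq_of_lt ht, zero_add]
      simp only [ment, tc, tl, Bool.or_eq_true, beq_iff_eq] at h
      rcases h with (h | h) | h
      · exact key _ (slot_lt b1) h
      · exact key _ (slot_lt b2) h
      · exact key _ (slot_lt b3) h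
  rw [copy, List.countP_append]
  simp only [List.length_cons, List.length_nil] at h1 h2
  omega

theorem count_echo (n : ℕ) (ψ : List PC) (g : ℕ) :
    (echo n ψ).countP (ment g) ≤ ψ.countP (ment ((g - 1) / 2)) + 8 := by
  have h1 := countP_range (ment g) echoC 4 n [g / 2, g / 2 - 1] (fun _ _ => le_rfl)
    fun j _ c hc h => by
      simp only [echoC, List.mem_cons, List.not_mem_nil, or_false] at hc ⊢
      rcases hc with rfl | rfl | rfl | rfl <;>
        simp only [ment, Bool.or_eq_true, beq_iff_eq] at h <;> omega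
  rw [echo, List.countP_append, List.countP_map]
  refine Nat.add_le_add (List.countP_mono_left fun c _ h => ?_) (by simpa using h1)
  have key : ∀ l : PL, (mv l).2.2 = g → l.2.2 = (g - 1) / 2 := by
    rintro ⟨s, _ | _, i⟩ h <;> simp only [mv, cond_true, cond_false] at h ⊢ <;> omega
  simp only [ment, comp, Bool.or_eq_true, beq_iff_eq] at h ⊢
  exact h.imp (Or.imp (key _) (key _)) (key _)

theorem mem_fs {l : PL} {β : Bool} {x : ℕ} (h : x ∈ fs l β) : l.2.2 = x / 4 := by
  obtain ⟨r, h1, rfl⟩ := List.mem_map.1 h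
  have := Tm_lt h1
  omega

theorem count_edges (N : ℕ) (φ : List PC) (x : ℕ) :
    (edges N φ).countP (fun e => e.contains x) ≤ 4 + 8 * φ.countP (ment (x / 4)) := by
  rw [edges, List.countP_append]
  refine Nat.add_le_add (countP_range _ _ 4 N [x / 4] (fun _ _ => by simp) fun g _ e he h => ?_)
    (countP_flat _ _ _ 8 φ (fun _ _ => by simp) fun c _ e he h => ?_)
  · obtain ⟨r, -, rfl⟩ := List.mem_map.1 he
    obtain ⟨s, h1, -, rfl⟩ := mem_tri.1 (List.contains_iff_mem.1 h)
    exact List.mem_singleton.2 (by omega)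
  · simp only [List.mem_flatMap, List.mem_map] at he
    obtain ⟨β₁, -, β₂, -, β₃, -, rfl⟩ := he
    simp only [List.contains_iff_mem, List.mem_append] at h
    simp only [ment, Bool.or_eq_true, beq_iff_eq, or_assoc]
    exact h.imp mem_fs (Or.imp mem_fs mem_fs)

theorem edge_len {N : ℕ} {φ : List PC} {e : List ℕ} (h : e ∈ edges N φ) : e.length ≤ 6 := by
  have h1 : ∀ x z, (Tm x z).length = 2 := by decide
  rcases mem_edges.1 h with ⟨g, -, r, -, rfl⟩ | ⟨c, -, β₁, β₂, β₃, rfl⟩
  · rw [tri, List.length_map]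
    exact (List.length_filter_le _ _).trans (by simp)
  · simp [fs, h1]

end Pool.Agent.Lib.MP_2d136f_lc.BD
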