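import Pool.Agent.Lib.MP_2d136f_lc.BD.Stall
import Pool.Agent.Lib.MP_2d136f_lc.BD.Copy
import Pool.Agent.Lib.MP_2d136f_lc.Member

/-!
Hardness on bipartite graphs of bounded degree, and on split graphs.
-/

set_option autoImplicit false

namespace Pool.Agent.Lib.MP_2d136f_lc.BD

open Function Pool.Agent.Shared.PolyTime Pool.Agent.Shared.NP

/-- The two sides. -/
def side (X v : ℕ) : Prop := v < X ∨ (4 ≤ (v - X) % 10 ∧ (v - X) % 10 ≤ 6)

theorem hf_side {X : ℕ} {E : List (List ℕ)} {u w : ℕ} (h : hf X E u w = true) :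
    side X u ∧ ¬ side X w := by
  unfold side
  rcases hf_iff.1 h with ⟨h1, ⟨h2, h3, -⟩ | ⟨h2, -, h3⟩⟩
  · omega
  · rw [loc_iff (by omega)] at h3
    omega

/-- The graph of a list of edges. -/
def graph2 (X : ℕ) (E : List (List ℕ)) : GraphInst where
  n := X + 10 * E.length
  graph :=
    { Adj := fun i j => ad2 X E i j = true
      symm := ⟨fun i j h => by rwa [ad2_symm]⟩
      loopless := ⟨fun i h => by
        rw [ad2, Bool.or_self] at h
        exact (hf_side h).2 (hf_side h).1⟩ }

/-- Its adjacency matrix. -/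
def mat2 (X : ℕ) (E : List (List ℕ)) : List (List Bool) :=
  (List.range (X + 10 * E.length)).map fun i => (List.range (X + 10 * E.length)).map fun j =>
    ad2 X E i j

theorem code_graph2 (X : ℕ) (E : List (List ℕ)) : (graph2 X E).code = Enc.enc (mat2 X E) := by
  unfold GraphInst.code
  rw [encGraph_eq, adjMatrix_eq _ (ad2 X E) fun _ _ => Iff.rfl]
  rfl

theorem wcdom_graph2 (X : ℕ) (E : List (List ℕ)) :
    WCDom (graph2 X E) ↔ Win (X + 10 * E.length) (ad2 X E) ∅ ∅ := by
  unfold WCDom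
  rw [domWins_iff _ (ad2 X E) fun _ _ => Iff.rfl]
  rfl

theorem mat2_pf : PF fun p : ℕ × List (List ℕ) => mat2 p.1 p.2 := by
  unfold mat2 ad2 hf loc
  fun_prop

theorem bip_graph2 (X : ℕ) (E : List (List ℕ)) : (graph2 X E).graph.IsBipartite := by
  classical
  refine ⟨SimpleGraph.Coloring.mk (fun v => if side X v then 0 else 1) fun {u w} h => ?_⟩
  have h' : hf X E u w = true ∨ hf X E w u = true := Bool.or_eq_true _ _ ▸ h
  rcases h' with h' | h' <;> simp [(hf_side h').1, (hf_side h').2]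

theorem ncard_le {n : ℕ} (s : Set (Fin n)) (L : List ℕ) (h : ∀ w ∈ s, w.val ∈ L) :
    s.ncard ≤ L.length := by
  refine (Set.ncard_le_ncard_of_injOn (t := (L.toFinset : Set ℕ)) Fin.val
    (fun w hw => by simpa using h w hw) Fin.val_injective.injOn (Finset.finite_toSet _)).trans ?_
  rw [Set.ncard_coe_finset]
  exact List.toFinset_card_le L

theorem deg_graph2 {X : ℕ} {E : List (List ℕ)} {k : ℕ} (h1 : ∀ e ∈ E, e.length ≤ 6)
    (h2 : ∀ x, E.countP (fun e => e.contains x) ≤ k) (hk : 6 ≤ k) (v : Fin (graph2 X E).n) :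
    ((graph2 X E).graph.neighborSet v).ncard ≤ 3 * k := by
  by_cases hv : v.val < X
  · refine (ncard_le _ (((List.range E.length).filter fun i => (E.getD i []).contains v.val).flatMap
      fun i => [X + 10 * i + 7, X + 10 * i + 8, X + 10 * i + 9]) fun w hw => ?_).trans ?_
    · have h' : hf X E v w = true ∨ hf X E w v = true := Bool.or_eq_true _ _ ▸ hw
      have hw2 : w.val < X + 10 * E.length := w.2
      rcases h' with h' | h'
      · rcases hf_iff.1 h' with ⟨a1, ⟨-, a2, a3⟩ | ⟨a2, -⟩⟩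
        · refine List.mem_flatMap.2 ⟨(w.val - X) / 10, List.mem_filter.2
            ⟨List.mem_range.2 (by omega), List.contains_iff_mem.2 a3⟩, ?_⟩
          simp only [List.mem_cons, List.not_mem_nil, or_false]
          omega
        · omega
      · have := (hf_iff.1 h').1
        omega
    · rw [List.length_flatMap]
      simp only [List.length_cons, List.length_nil, List.map_const', List.sum_replicate,
        smul_eq_mul]
      rw [← List.countP_eq_length_filter]
      have e : E = (List.range E.length).map fun i => E.getD i [] := by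
        refine List.ext_getElem (by simp) fun i a b => ?_
        rw [List.getElem_map, List.getElem_range, List.getD_eq_getElem _ _ a]
      generalize v.val = y
      have := h2 y
      rw [e, List.countP_map] at this
      have e2 : (List.range E.length).countP (fun i => (E.getD i []).contains y) ≤ k := this
      omega
  · have hv2 : v.val < X + 10 * E.length := v.2
    obtain ⟨i, a, ha, e⟩ : ∃ i a, a < 10 ∧ v.val = X + 10 * i + a :=
      ⟨(v.val - X) / 10, (v.val - X) % 10, by omega, by omega⟩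
    have hi : i < E.length := by omega
    refine (ncard_le _ (((List.range 10).map fun b => X + 10 * i + b) ++ E.getD i [])
      fun w hw => ?_).trans ?_
    · have h' : ad2 X E v w = true := hw
      rw [e] at h'
      rcases ad2_high ha h' with ⟨b, b1, b2, -⟩ | ⟨-, b2⟩
      · exact List.mem_append_left _ (List.mem_map.2 ⟨b, List.mem_range.2 b1, b2.symm⟩)
      · exact List.mem_append_right _ b2
    · have := h1 _ (List.getElem_mem hi)
      rw [List.length_append, List.length_map, List.length_range, List.getD_eq_getElem _ _ hi]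
      omega

theorem hard_bip (L : List Bool → Prop) (hL : InPSPACE id L) :
    ∃ f : List Bool → GraphInst, PolyComputable id GraphInst.code f ∧
      (∀ x, (f x).graph.IsBipartite ∧ ∀ v, ((f x).graph.neighborSet v).ncard ≤ 372) ∧
      ∀ x, L x ↔ WCDom (f x) := by
  obtain ⟨F, hF, hs⟩ := to_formula L hL
  let G : Raw → ℕ × List PC := fun w =>
    ((F w).1 + (F w).2.length * (2 * (F w).1), copy (F w).1 (F w).2)
  have hG : PF G := PF.pair (by fun_prop) (copy_pf.comp hF)
  let H : Raw → ℕ × List PC := fun w => (2 * (G w).1 + 1, echo (G w).1 (G w).2)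
  have hH : PF H := PF.pair (by fun_prop) (echo_pf.comp hG)
  have h1 : PF fun w : Raw => mat2 (4 * (H w).1) (edges (H w).1 (H w).2) :=
    mat2_pf.comp (g := fun w : Raw => (4 * (H w).1, edges (H w).1 (H w).2))
      (PF.pair (by fun_prop) (edges_pf.comp hH))
  refine ⟨fun x => graph2 (4 * (H ⟨x⟩).1) (edges (H ⟨x⟩).1 (H ⟨x⟩).2),
    h1.tm2 id _ _ Raw.mk (fun _ => rfl) (fun x => code_graph2 _ _),
    fun x => ⟨bip_graph2 _ _, deg_graph2 (k := 124) (fun e he => edge_len he) (fun y => ?_)
      (by omega)⟩, fun x => ?_⟩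
  · have a1 := count_edges (H ⟨x⟩).1 (H ⟨x⟩).2 y
    have a2 : (H ⟨x⟩).2.countP (ment (y / 4)) ≤ _ := count_echo (G ⟨x⟩).1 (G ⟨x⟩).2 (y / 4)
    have a3 : (G ⟨x⟩).2.countP (ment ((y / 4 - 1) / 2)) ≤ 7 := count_copy (hs x).1 _
    omega
  · obtain ⟨h2, h3, h4⟩ := hs x
    have b1 : Bdd (G ⟨x⟩).1 (G ⟨x⟩).2 := bdd_copy h2
    rw [wcdom_graph2]
    exact ⟨fun h => win2 (bdd_echo b1) (wform_echo _ (wform_copy h2 (h3 h))),
      fun h => by_contra fun h' => not_win2 (bdd_echo b1) (cform_echo b1 (sform_copy h2 (h4 h'))) h⟩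

theorem hard_split (L : List Bool → Prop) (hL : InPSPACE id L) :
    ∃ f : List Bool → GraphInst, PolyComputable id GraphInst.code f ∧
      (∀ x, ∃ K : Set (Fin (f x).n), (f x).graph.IsClique K ∧ (f x).graph.IsIndepSet Kᶜ) ∧
      ∀ x, L x ↔ WCDom (f x) := by
  obtain ⟨F, hF, hs⟩ := to_formula L hL
  have h1 : PF fun w : Raw => matOf (2 * (F w).1 + 1) (echo (F w).1 (F w).2) :=
    matOf_pf.comp (g := fun w : Raw => (2 * (F w).1 + 1, echo (F w).1 (F w).2))
      (PF.pair (by fun_prop) (echo_pf.comp hF))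
  refine ⟨fun x => graphOf (2 * (F ⟨x⟩).1 + 1) (echo (F ⟨x⟩).1 (F ⟨x⟩).2),
    h1.tm2 id _ _ Raw.mk (fun _ => rfl) (fun x => code_graphOf _ _), fun x => ?_, fun x => ?_⟩
  · refine ⟨{v | v.val < 4 * (2 * (F ⟨x⟩).1 + 1)}, fun u hu w hw h => ?_, fun u hu w hw _ h => ?_⟩
    · have e : u.val ≠ w.val := fun e => h (Fin.ext e)
      have hu' : u.val < 4 * (2 * (F ⟨x⟩).1 + 1) := hu
      have hw' : w.val < 4 * (2 * (F ⟨x⟩).1 + 1) := hw
      show adj _ _ _ _ _ = true
      simp [adj, half, Nat.blt_eq, e, hu', hw']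
    · have hu' : ¬ u.val < 4 * (2 * (F ⟨x⟩).1 + 1) := hu
      have hw' : ¬ w.val < 4 * (2 * (F ⟨x⟩).1 + 1) := hw
      have h' : adj _ _ _ _ _ = true := h
      simp [adj, half, Nat.blt_eq, hu', hw'] at h'
  · obtain ⟨h2, h3, h4⟩ := hs x
    exact ⟨fun h => (reduce h2).1 (h3 h), fun h => by_contra fun h' => (reduce h2).2 (h4 h') h⟩

end Pool.Agent.Lib.MP_2d136f_lc.BD
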