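import Pool.Agent.Lib.MP_2d136f_lc.BD.Wait
import Pool.Agent.Lib.MP_2d136f_lc.BD.Tab

/-!
Staller's strategy on the bipartite graph.
-/

set_option autoImplicit false

namespace Pool.Agent.Lib.MP_2d136f_lc.BD

open Function Finset

/-- The mask `d` describes the part of `D` in the core with first vertex `B`. -/
def Rep (B : ℕ) (D : Finset ℕ) (d : ℕ) : Prop :=
  d < 256 ∧ ∀ t < 8, (B + t ∈ D ↔ d.testBit t = true)

/-- The vertex lies in the core. -/
def In (B u : ℕ) : Prop := B ≤ u ∧ u < B + 8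

theorem Rep.out {B u d : ℕ} {D : Finset ℕ} (h : Rep B D d) (hu : ¬ In B u) :
    Rep B (insert u D) d := by
  refine ⟨h.1, fun t ht => ?_⟩
  rw [mem_insert, or_iff_right (fun e => hu ⟨by omega, by omega⟩), h.2 t ht]

theorem Rep.ins {B u d : ℕ} {D : Finset ℕ} (h : Rep B D d) (hu : In B u) :
    Rep B (insert u D) (ad d (u - B)) := by
  obtain ⟨h1, h2⟩ := hu
  refine ⟨Nat.or_lt_two_pow (n := 8) h.1 (Nat.pow_lt_pow_right (by omega) (by omega)),
    fun t ht => ?_⟩
  rw [mem_insert, h.2 t ht, ad, Nat.testBit_or, Nat.testBit_two_pow, Bool.or_eq_true,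
    decide_eq_true_eq, or_comm]
  exact or_congr Iff.rfl ⟨fun e => by omega, fun e => by omega⟩

theorem fr_of {B u d s : ℕ} {D S : Finset ℕ} (h1 : Rep B D d) (h2 : Rep B S s) (hu : In B u)
    (h3 : u ∉ D) (h4 : u ∉ S) : fr d s (u - B) = true := by
  obtain ⟨a1, a2⟩ := hu
  have e1 := h1.2 (u - B) (by omega)
  have e2 := h2.2 (u - B) (by omega)
  rw [show B + (u - B) = u by omega] at e1 e2
  simp only [fr, Bool.and_eq_true, Bool.not_eq_eq_eq_not, Bool.not_true]
  exact ⟨by simpa [h3] using e1, by simpa [h4] using e2⟩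

/-- The position in the core is listed in a table. -/
def St (T : ℕ → ℕ → Bool) (B : ℕ) (D S : Finset ℕ) : Prop :=
  ∃ d s, Rep B D d ∧ Rep B S s ∧ T d s = true

section

variable {B n u v : ℕ} {D S : Finset ℕ}

theorem St.out {T : ℕ → ℕ → Bool} (h : St T B D S) (hu : ¬ In B u) (hv : ¬ In B v) :
    St T B (insert v D) (insert u S) := by
  obtain ⟨d, s, h1, h2, h3⟩ := h
  exact ⟨d, s, h1.out hv, h2.out hu, h3⟩

theorem stA_gain (h : St TA B D S) (hl : Legal n D S u v) (hu : In B u) (hv : ¬ In B v) :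
    St TA B (insert v D) (insert u S) := by
  obtain ⟨d, s, h1, h2, h3⟩ := h
  exact ⟨d, _, h1.out hv, h2.ins hu, ((TA_spec h1.1 h2.1 h3).2 _ (by have := hu.2; omega)
    (fr_of h1 h2 hu hl.2.2.2.1 hl.2.2.2.2.1)).1⟩

theorem stA_step (h : St TA B D S) (hl : Legal n D S u v) :
    St TA B (insert u D) (insert v S) ∨ St TA B (insert v D) (insert u S) := by
  by_cases hu : In B u <;> by_cases hv : In B v
  · obtain ⟨d, s, h1, h2, h3⟩ := h
    refine (((TA_spec h1.1 h2.1 h3).2 _ (by have := hu.2; omega)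
      (fr_of h1 h2 hu hl.2.2.2.1 hl.2.2.2.2.1)).2 (v - B) (by have := hv.2; omega)
      (by have := hu.1; have := hv.1; have := hl.2.2.1; omega)
      (fr_of h1 h2 hv hl.2.2.2.2.2.1 hl.2.2.2.2.2.2)).imp (fun h => ?_) fun h => ?_
    · exact ⟨_, _, h1.ins hu, h2.ins hv, h⟩
    · exact ⟨_, _, h1.ins hv, h2.ins hu, h⟩
  · exact Or.inr (stA_gain h hl hu hv)
  · exact Or.inl (stA_gain h hl.symm hv hu)
  · exact Or.inr (h.out hu hv)

theorem stG_one (h : St TG B D S) (hl : Legal n D S u v) (hu : In B u) (hv : ¬ In B v) :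
    St TA B (insert v D) (insert u S) ∨
      (St TG B (insert u D) (insert v S) ∧ St TG B (insert v D) (insert u S)) := by
  obtain ⟨d, s, h1, h2, h3⟩ := h
  refine ((TG_spec h1.1 h2.1 h3).2 _ (by have := hu.2; omega)
    (fr_of h1 h2 hu hl.2.2.2.1 hl.2.2.2.2.1)).1.imp (fun h => ?_) fun h => ⟨?_, ?_⟩
  · exact ⟨_, _, h1.out hv, h2.ins hu, h⟩
  · exact ⟨_, _, h1.ins hu, h2.out hv, h.1⟩
  · exact ⟨_, _, h1.out hv, h2.ins hu, h.2⟩

theorem stG_pair (h : St TG B D S) (hl : Legal n D S u v) (hu : In B u) (hv : In B v) :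
    (St TA B (insert u D) (insert v S) ∨ St TA B (insert v D) (insert u S)) ∨
      (St TG B (insert u D) (insert v S) ∨ St TG B (insert v D) (insert u S)) := by
  obtain ⟨d, s, h1, h2, h3⟩ := h
  rcases ((TG_spec h1.1 h2.1 h3).2 _ (by have := hu.2; omega)
      (fr_of h1 h2 hu hl.2.2.2.1 hl.2.2.2.2.1)).2 (v - B) (by have := hv.2; omega)
      (by have := hu.1; have := hv.1; have := hl.2.2.1; omega)
      (fr_of h1 h2 hv hl.2.2.2.2.2.1 hl.2.2.2.2.2.2) with ((h | h) | h) | h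
  · exact Or.inl (Or.inl ⟨_, _, h1.ins hu, h2.ins hv, h⟩)
  · exact Or.inl (Or.inr ⟨_, _, h1.ins hv, h2.ins hu, h⟩)
  · exact Or.inr (Or.inl ⟨_, _, h1.ins hu, h2.ins hv, h⟩)
  · exact Or.inr (Or.inr ⟨_, _, h1.ins hv, h2.ins hu, h⟩)

theorem stG_step (h : St TG B D S) (hl : Legal n D S u v) (hn : ¬ (In B u ∧ In B v)) :
    (St TA B (insert u D) (insert v S) ∨ St TA B (insert v D) (insert u S)) ∨
      (St TG B (insert u D) (insert v S) ∧ St TG B (insert v D) (insert u S)) := by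
  by_cases hu : In B u <;> by_cases hv : In B v
  · exact absurd ⟨hu, hv⟩ hn
  · exact (stG_one h hl hu hv).imp Or.inr id
  · exact (stG_one h hl.symm hv hu).imp Or.inl And.symm
  · exact Or.inr ⟨h.out hv hu, h.out hu hv⟩

end

section

variable {N n u v : ℕ} {J : Finset ℕ → (ℕ → Bool) → (ℕ → Bool) → Prop} {D S : Finset ℕ}

theorem low_outer (h : Blk N D S ∨ Nrm N J D S) (hl : Legal n D S u v) (h1 : 4 * N ≤ u)
    (h2 : 4 * N ≤ v) :
    Blk N (insert v D) (insert u S) ∨ Nrm N J (insert v D) (insert u S) := by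
  rcases h with h | h
  · exact Or.inl (h.step hl.2.2.2.2.2.1 hl.2.2.2.2.1 fun g hg _ e => by omega)
  · exact Or.inr (h.outer h1 h2)

theorem low_mixed (h : Blk N D S ∨ Nrm N J D S) (hl : Legal n D S u v) (h1 : u < 4 * N)
    (h2 : 4 * N ≤ v) : Blk N (insert v D) (insert u S) := by
  rcases h with h | h
  · exact h.step hl.2.2.2.2.2.1 hl.2.2.2.2.1 fun g hg _ e => by omega
  · exact h.cross hl.2.2.2.2.1 (by omega) (by omega)

theorem low_step
    (hJ : ∀ P ξ ζ g x, J P ξ ζ → g ∉ P → ∃ z, J (insert g P) (update ξ g x) (update ζ g z))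
    (hH : Blk N D S ∨ Nrm N J D S) (hl : Legal n D S u v) :
    (Blk N (insert u D) (insert v S) ∨ Nrm N J (insert u D) (insert v S)) ∨
      (Blk N (insert v D) (insert u S) ∨ Nrm N J (insert v D) (insert u S)) := by
  by_cases hu : u < 4 * N <;> by_cases hv : v < 4 * N
  · rcases hH with ⟨g, hg, hH⟩ | hH
    · by_cases e : u / 4 = g
      · refine Or.inr (Or.inl ⟨g, hg, ?_⟩)
        rw [cnt_insert_eq e hl.2.2.2.2.1]
        by_cases e' : v / 4 = g
        · rw [cnt_insert_eq e' hl.2.2.2.2.2.1]; omega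
        · rw [cnt_insert_ne e']; omega
      · refine Or.inl (Or.inl ⟨g, hg, ?_⟩)
        rw [cnt_insert_ne e]
        by_cases e' : v / 4 = g
        · rw [cnt_insert_eq e' hl.2.2.2.2.2.2]; omega
        · rwa [cnt_insert_ne e']
    · by_cases e : v / 4 = u / 4
      · exact (hH.inner hJ hl (by omega) e).imp Or.inr Or.inr
      · exact Or.inr (Or.inl (hH.cross hl.2.2.2.2.1 (by omega) e))
  · exact Or.inr (Or.inl (low_mixed hH hl hu (by omega)))
  · exact Or.inl (Or.inl (low_mixed hH hl.symm hv (by omega)))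
  · exact Or.inr (low_outer hH hl (by omega) (by omega))

theorem low_end {φ : List PC} (hφ : Bdd N φ) (hn : 4 * N ≤ n)
    (hend : ∀ P ξ ζ, J P ξ ζ → (∀ g < N, g ∈ P) → ∃ c ∈ φ, ¬ CT ξ ζ c)
    (hd : Disjoint D S) (hH : Blk N D S ∨ Nrm N J D S) (hl : ∀ u v, ¬ Legal n D S u v) :
    ∃ e ∈ edges N φ, ∀ u ∈ e, u ∉ D := by
  rcases hH with ⟨g, hg, hH⟩ | ⟨P, ξ, ζ, hP, hH⟩
  · have h1 := cnt_add_le hd g
    have h2 : cnt D g ≤ 1 := by omega
    obtain ⟨r, hr, h3⟩ : ∃ r < 4, ∀ s < 4, s ≠ r → 4 * g + s ∉ D := by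
      by_cases h3 : ∃ r < 4, 4 * g + r ∈ D
      · obtain ⟨r, hr, h3⟩ := h3
        refine ⟨r, hr, fun s hs e h4 => e ?_⟩
        exact card_le_one.1 h2 s (by simp [hs, h4]) r (by simp [hr, h3])
      · exact ⟨0, by omega, fun s hs _ h4 => h3 ⟨s, hs, h4⟩⟩
    refine ⟨tri g r, mem_edges.2 (Or.inl ⟨g, hg, r, hr, rfl⟩), fun u hu => ?_⟩
    obtain ⟨s, h4, h5, rfl⟩ := mem_tri.1 hu
    exact h3 s h4 h5
  · have hall : ∀ g < N, g ∈ P := by
      intro g hg
      by_contra hc
      have h1 := (hH g hg).2.1 hc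
      exact hl (4 * g + 0) (4 * g + 1) ⟨by omega, by omega, by omega, (h1 0 (by omega)).1,
        (h1 0 (by omega)).2, (h1 1 (by omega)).1, (h1 1 (by omega)).2⟩
    obtain ⟨c, hc, hn⟩ := hend P ξ ζ hP hall
    obtain ⟨b1, b2, b3⟩ := hφ c hc
    simp only [CT, not_or] at hn
    obtain ⟨β₁, k1⟩ := miss_fs ((hH _ b1).2.2 (hall _ b1)).2.1 hn.1
    obtain ⟨β₂, k2⟩ := miss_fs ((hH _ b2).2.2 (hall _ b2)).2.1 hn.2.1
    obtain ⟨β₃, k3⟩ := miss_fs ((hH _ b3).2.2 (hall _ b3)).2.1 hn.2.2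
    refine ⟨_, mem_edges.2 (Or.inr ⟨c, hc, β₁, β₂, β₃, rfl⟩), fun u hu => ?_⟩
    simp only [List.mem_append] at hu
    rcases hu with hu | hu | hu
    · exact k1 u hu
    · exact k2 u hu
    · exact k3 u hu

end

theorem undom {X n i a d : ℕ} {E : List (List ℕ)} {D : Finset ℕ} (hr : Rep (X + 10 * i) D d)
    (hn : X + 10 * i + 10 ≤ n) (ha : a < 8) (h0 : d.testBit a = false)
    (h1 : ∀ b < 10, (loc a b = true ∨ loc b a = true) → b < 8 ∧ d.testBit b = false)
    (h2 : 7 ≤ a → ∀ u ∈ E.getD i [], u ∉ D) : ¬ Dom n (ad2 X E) D := by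
  intro hdom
  rcases hdom (X + 10 * i + a) (by omega) with h | ⟨u, h, h'⟩
  · rw [hr.2 a ha, h0] at h
    exact absurd h (by simp)
  · rcases ad2_high (by omega) h' with ⟨b, b1, rfl, b2⟩ | ⟨b1, b2⟩
    · rw [hr.2 b (h1 b b1 b2).1, (h1 b b1 b2).2] at h
      exact absurd h (by simp)
    · exact h2 b1 u b2 h

theorem not_win2 {N : ℕ} {φ : List PC} (hφ : Bdd N φ) (h : CForm N φ) :
    ¬ Win (4 * N + 10 * (edges N φ).length) (ad2 (4 * N) (edges N φ)) ∅ ∅ := by
  obtain ⟨J, ξ₀, ζ₀, h0, hJ, hend⟩ := h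
  refine not_win (fun D S => (∃ i < (edges N φ).length, St TA (4 * N + 10 * i) D S) ∨
    (Disjoint D S ∧ (Blk N D S ∨ Nrm N J D S) ∧
      ∀ i < (edges N φ).length, St TG (4 * N + 10 * i) D S)) ?_ ?_
    (Or.inr ⟨by simp, Or.inr ⟨∅, ξ₀, ζ₀, h0, fun g _ => by simp [cnt]⟩, fun i _ =>
      ⟨0, 0, ⟨by omega, by simp⟩, ⟨by omega, by simp⟩, TG_zero⟩⟩)
  · have dj : ∀ {D S : Finset ℕ} {u v n : ℕ}, Disjoint D S → Legal n D S u v →
        Disjoint (insert v D) (insert u S) := by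
      intro D S u v n hd hl
      obtain ⟨-, -, l3, l4, l5, l6, l7⟩ := hl
      simp [hd, l3, l4, l7]
    rintro D S u v (⟨i, hi, h⟩ | ⟨hd, hH, hG⟩) hl
    · exact (stA_step h hl).imp (fun h => Or.inl ⟨i, hi, h⟩) fun h => Or.inl ⟨i, hi, h⟩
    · have d1 := dj hd hl
      have d2 := dj hd hl.symm
      by_cases hA : ∃ i < (edges N φ).length, St TA (4 * N + 10 * i) (insert u D) (insert v S) ∨
          St TA (4 * N + 10 * i) (insert v D) (insert u S)
      · obtain ⟨i, hi, h⟩ := hA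
        exact h.imp (fun h => Or.inl ⟨i, hi, h⟩) fun h => Or.inl ⟨i, hi, h⟩
      · have both : ∀ i < (edges N φ).length, ¬ (In (4 * N + 10 * i) u ∧ In (4 * N + 10 * i) v) →
            St TG (4 * N + 10 * i) (insert u D) (insert v S) ∧
              St TG (4 * N + 10 * i) (insert v D) (insert u S) := fun i hi hn =>
          (stG_step (hG i hi) hl hn).resolve_left fun h => hA ⟨i, hi, h⟩
        by_cases hS : ∃ i < (edges N φ).length, In (4 * N + 10 * i) u ∧ In (4 * N + 10 * i) v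
        · obtain ⟨i, hi, hu, hv⟩ := hS
          have other : ∀ j, j ≠ i → ¬ (In (4 * N + 10 * j) u ∧ In (4 * N + 10 * j) v) := by
            rintro j hj ⟨⟨a1, a2⟩, -⟩
            obtain ⟨a3, a4⟩ := hu
            omega
          have u1 : 4 * N ≤ u := by have := hu.1; omega
          have v1 : 4 * N ≤ v := by have := hv.1; omega
          rcases (stG_pair (hG i hi) hl hu hv).resolve_left (fun h => hA ⟨i, hi, h⟩) with h | h
          · refine Or.inl (Or.inr ⟨d2, low_outer hH hl.symm v1 u1, fun j hj => ?_⟩)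
            by_cases e : j = i
            · exact e ▸ h
            · exact (both j hj (other j e)).1
          · refine Or.inr (Or.inr ⟨d1, low_outer hH hl u1 v1, fun j hj => ?_⟩)
            by_cases e : j = i
            · exact e ▸ h
            · exact (both j hj (other j e)).2
        · rcases low_step hJ hH hl with h | h
          · exact Or.inl (Or.inr ⟨d2, h, fun j hj => (both j hj fun h => hS ⟨j, hj, h⟩).1⟩)
          · exact Or.inr (Or.inr ⟨d1, h, fun j hj => (both j hj fun h => hS ⟨j, hj, h⟩).2⟩)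
  · rintro D S (⟨i, hi, d, s, h1, h2, h3⟩ | ⟨hd, hH, hG⟩) hl
    · have h4 := (TA_spec h1.1 h2.1 h3).1
      simp only [alive, Bool.or_eq_true, Bool.and_eq_true, Bool.not_eq_eq_eq_not,
        Bool.not_true] at h4
      rcases h4 with (((h4 | h4) | h4) | h4) | h4
      · refine undom h1 (by omega) (a := 0) (by omega) h4.1.1 (fun b hb e => ?_) (by omega)
        rw [loc_iff hb, loc_iff (by omega)] at e
        obtain rfl | rfl : b = 5 ∨ b = 6 := by omega
        · exact ⟨by omega, h4.1.2⟩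
        · exact ⟨by omega, h4.2⟩
      · refine undom h1 (by omega) (a := 1) (by omega) h4.1.1 (fun b hb e => ?_) (by omega)
        rw [loc_iff hb, loc_iff (by omega)] at e
        obtain rfl | rfl : b = 5 ∨ b = 6 := by omega
        · exact ⟨by omega, h4.1.2⟩
        · exact ⟨by omega, h4.2⟩
      · refine undom h1 (by omega) (a := 2) (by omega) h4.1.1 (fun b hb e => ?_) (by omega)
        rw [loc_iff hb, loc_iff (by omega)] at e
        obtain rfl | rfl : b = 4 ∨ b = 6 := by omega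
        · exact ⟨by omega, h4.1.2⟩
        · exact ⟨by omega, h4.2⟩
      · refine undom h1 (by omega) (a := 3) (by omega) h4.1.1 (fun b hb e => ?_) (by omega)
        rw [loc_iff hb, loc_iff (by omega)] at e
        obtain rfl | rfl : b = 4 ∨ b = 6 := by omega
        · exact ⟨by omega, h4.1.2⟩
        · exact ⟨by omega, h4.2⟩
      · refine undom h1 (by omega) (a := 4) (by omega) h4.1.1.1 (fun b hb e => ?_) (by omega)
        rw [loc_iff hb, loc_iff (by omega)] at e
        obtain rfl | rfl | rfl : b = 2 ∨ b = 3 ∨ b = 7 := by omega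
        · exact ⟨by omega, h4.1.1.2⟩
        · exact ⟨by omega, h4.1.2⟩
        · exact ⟨by omega, h4.2⟩
    · obtain ⟨e, he, hm⟩ := low_end hφ (Nat.le_add_right _ _) hend hd hH hl
      obtain ⟨i, hi, rfl⟩ := List.getElem_of_mem he
      obtain ⟨d, s, h1, h2, h3⟩ := hG i hi
      have h4 := (TG_spec h1.1 h2.1 h3).1
      refine undom h1 (by omega) (a := 7) (by omega) h4.2 (fun b hb e => ?_) fun _ => ?_
      · rw [loc_iff hb, loc_iff (by omega)] at e
        obtain rfl : b = 4 := by omega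
        exact ⟨by omega, h4.1⟩
      · rwa [List.getD_eq_getElem _ [] hi]

end Pool.Agent.Lib.MP_2d136f_lc.BD
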