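import Pool.Agent.Lib.MP_2d136f_lc.Staller

/-!
The bipartite graph with a ten-vertex gadget for every edge, and Dominator's strategy.
-/

set_option autoImplicit false

namespace Pool.Agent.Lib.MP_2d136f_lc.BD

open Function

/-- Adjacency inside a gadget, from the side `4, 5, 6` to the other side. -/
def loc (a b : ℕ) : Bool := [50, 51, 60, 61, 62, 63, 42, 43, 47, 58, 59].contains (10 * a + b)

/-- One direction of the adjacency. -/
def hf (X : ℕ) (E : List (List ℕ)) (u w : ℕ) : Bool :=
  Nat.ble X w && (bif Nat.blt u X then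
    Nat.ble 7 ((w - X) % 10) && (E.getD ((w - X) / 10) []).contains u
  else ((u - X) / 10 == (w - X) / 10) && loc ((u - X) % 10) ((w - X) % 10))

/-- The adjacency. -/
def ad2 (X : ℕ) (E : List (List ℕ)) (u w : ℕ) : Bool := hf X E u w || hf X E w u

theorem ad2_symm (X : ℕ) (E : List (List ℕ)) (u w : ℕ) : ad2 X E u w = ad2 X E w u :=
  Bool.or_comm _ _

theorem hf_iff {X : ℕ} {E : List (List ℕ)} {u w : ℕ} : hf X E u w = true ↔
    X ≤ w ∧ ((u < X ∧ 7 ≤ (w - X) % 10 ∧ u ∈ E.getD ((w - X) / 10) []) ∨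
      (X ≤ u ∧ (u - X) / 10 = (w - X) / 10 ∧ loc ((u - X) % 10) ((w - X) % 10) = true)) := by
  unfold hf
  by_cases h : u < X
  · have e : Nat.blt u X = true := by simpa [Nat.blt_eq] using h
    simp [e, h, Nat.ble_eq, Nat.not_le.2 h]
  · have e : Nat.blt u X = false := by
      rw [← Bool.not_eq_true, Nat.blt_eq]
      exact h
    simp [e, h, Nat.ble_eq, Nat.le_of_not_lt h]

theorem loc_iff {a b : ℕ} (hb : b < 10) : loc a b = true ↔
    (a = 5 ∧ (b = 0 ∨ b = 1 ∨ b = 8 ∨ b = 9)) ∨ (a = 6 ∧ b < 4) ∨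
      (a = 4 ∧ (b = 2 ∨ b = 3 ∨ b = 7)) := by
  simp only [loc, List.contains_iff_mem, List.mem_cons, List.not_mem_nil, or_false]
  omega

theorem ad2_loc {X : ℕ} {E : List (List ℕ)} {i a b : ℕ} (ha : a < 10) (hb : b < 10)
    (h : loc a b = true ∨ loc b a = true) : ad2 X E (X + 10 * i + a) (X + 10 * i + b) = true := by
  have e1 : ∀ c < 10, (X + 10 * i + c - X) / 10 = i := fun c hc => by omega
  have e2 : ∀ c < 10, (X + 10 * i + c - X) % 10 = c := fun c hc => by omega
  simp only [ad2, Bool.or_eq_true, hf_iff, e1 a ha, e1 b hb, e2 a ha, e2 b hb]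
  rcases h with h | h
  · exact Or.inl ⟨by omega, Or.inr ⟨by omega, trivial, h⟩⟩
  · exact Or.inr ⟨by omega, Or.inr ⟨by omega, trivial, h⟩⟩

theorem hf_port {X : ℕ} {E : List (List ℕ)} {i a u : ℕ} (ha : a < 10) (h7 : 7 ≤ a) (hu : u < X)
    (h : u ∈ E.getD i []) : hf X E u (X + 10 * i + a) = true := by
  rw [hf_iff, show (X + 10 * i + a - X) / 10 = i by omega,
    show (X + 10 * i + a - X) % 10 = a by omega]
  exact ⟨by omega, Or.inl ⟨hu, h7, h⟩⟩

theorem ad2_high {X : ℕ} {E : List (List ℕ)} {i a u : ℕ} (ha : a < 10)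
    (h : ad2 X E (X + 10 * i + a) u = true) :
    (∃ b < 10, u = X + 10 * i + b ∧ (loc a b = true ∨ loc b a = true)) ∨
      (7 ≤ a ∧ u ∈ E.getD i []) := by
  have e1 : (X + 10 * i + a - X) / 10 = i := by omega
  have e2 : (X + 10 * i + a - X) % 10 = a := by omega
  simp only [ad2, Bool.or_eq_true, hf_iff, e1, e2] at h
  rcases h with ⟨h1, ⟨h2, -⟩ | ⟨-, h2, h3⟩⟩ | ⟨-, ⟨-, h2⟩ | ⟨h1, h2, h3⟩⟩
  · omega
  · exact Or.inl ⟨(u - X) % 10, by omega, by omega, Or.inl h3⟩
  · exact Or.inr h2
  · exact Or.inl ⟨(u - X) % 10, by omega, by omega, Or.inr h3⟩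

/-- Strategy trees. -/
inductive Tr : Type
  | leaf : Tr
  | node : ℕ → ℕ → Tr → Tr → Tr

/-- Dominator has finished in a gadget. -/
def doneB (d : List ℕ) : Bool :=
  ((List.range 7).all fun a => d.contains a || d.any fun b => loc a b || loc b a) &&
    (d.contains 8 || d.contains 9)

/-- A strategy tree is legal and finishes the gadget. -/
def chk : Tr → List ℕ → List ℕ → Bool
  | .leaf, d, _ => doneB d
  | .node u v l r, d, s => Nat.blt u 10 && Nat.blt v 10 && !(u == v) && !d.contains u &&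
      !s.contains u && !d.contains v && !s.contains v && chk l (u :: d) (v :: s) &&
      chk r (v :: d) (u :: s)

/-- Dominator's strategy for the core. -/
def core : Tr :=
  .node 0 2 (.node 4 6 (.node 1 5 .leaf .leaf) (.node 3 7 .leaf .leaf))
    (.node 5 6 (.node 3 4 .leaf .leaf) .leaf)

theorem chk_start : chk (.node 8 9 core core) [] [] = true := by decide

theorem play {n B : ℕ} {A : ℕ → ℕ → Bool} (hB : B + 10 ≤ n) (D₀ : Finset ℕ)
    (cont : ∀ (D S : Finset ℕ) (d : List ℕ), D₀ ⊆ D → doneB d = true →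
      (∀ t ∈ d, t < 10 ∧ B + t ∈ D) → (∀ v ∈ D, v < B + 10) → (∀ v ∈ S, v < B + 10) →
      Win n A D S) :
    ∀ (T : Tr) (d s : List ℕ) (D S : Finset ℕ), chk T d s = true → D₀ ⊆ D →
      (∀ t ∈ d, t < 10 ∧ B + t ∈ D) → (∀ t, B + t ∈ D → t ∈ d) → (∀ t, B + t ∈ S → t ∈ s) →
      (∀ v ∈ D, v < B + 10) → (∀ v ∈ S, v < B + 10) → Win n A D S := by
  intro T
  induction T with
  | leaf => exact fun d s D S h h0 h1 _ _ h4 h5 => cont D S d h0 h h1 h4 h5
  | node u v l r ihl ihr =>
    intro d s D S h h0 h1 h2 h3 h4 h5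
    simp only [chk, Bool.and_eq_true, Nat.blt_eq, Bool.not_eq_eq_eq_not, Bool.not_true,
      beq_eq_false_iff_ne, List.contains_eq_mem, decide_eq_false_iff_not] at h
    obtain ⟨⟨⟨⟨⟨⟨⟨⟨a1, a2⟩, a3⟩, a4⟩, a5⟩, a6⟩, a7⟩, a8⟩, a9⟩ := h
    have i1 : ∀ (x : ℕ) (d : List ℕ) (D : Finset ℕ), (∀ t, B + t ∈ D → t ∈ d) →
        ∀ t, B + t ∈ insert (B + x) D → t ∈ x :: d := by
      intro x d D h t ht
      rcases Finset.mem_insert.1 ht with e | e
      · exact List.mem_cons.2 (Or.inl (by omega))
      · exact List.mem_cons_of_mem _ (h t e)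
    have i2 : ∀ (x : ℕ) (D : Finset ℕ), x < 10 → (∀ v ∈ D, v < B + 10) →
        ∀ v ∈ insert (B + x) D, v < B + 10 := by
      intro x D hx h w hw
      rcases Finset.mem_insert.1 hw with e | e
      · omega
      · exact h w e
    have i3 : ∀ x < 10, ∀ t ∈ x :: d, t < 10 ∧ B + t ∈ insert (B + x) D := by
      intro x hx t ht
      rcases List.mem_cons.1 ht with rfl | e
      · exact ⟨hx, Finset.mem_insert_self _ _⟩
      · exact ⟨(h1 t e).1, Finset.mem_insert_of_mem (h1 t e).2⟩
    refine Win.offer (B + u) (B + v) ⟨by omega, by omega, by omega, fun e => a4 (h2 _ e),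
      fun e => a5 (h3 _ e), fun e => a6 (h2 _ e), fun e => a7 (h3 _ e)⟩ ?_ ?_
    · exact ihl _ _ _ _ a8 (h0.trans (Finset.subset_insert _ _)) (i3 u a1) (i1 u d D h2)
        (i1 v s S h3) (i2 u D a1 h4) (i2 v S a2 h5)
    · exact ihr _ _ _ _ a9 (h0.trans (Finset.subset_insert _ _)) (i3 v a2) (i1 v d D h2)
        (i1 u s S h3) (i2 v D a2 h4) (i2 u S a1 h5)

theorem win_gadgets {X : ℕ} {E : List (List ℕ)} (hc : ∀ x < X, ∃ e ∈ E, x ∈ e)
    {D S : Finset ℕ} (h1 : ∀ v ∈ D, v < X) (h2 : ∀ v ∈ S, v < X)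
    (h3 : ∀ e ∈ E, ∃ u ∈ e, u < X ∧ u ∈ D) : Win (X + 10 * E.length) (ad2 X E) D S := by
  have key : ∀ (k i : ℕ), i + k = E.length → ∀ (D S : Finset ℕ), (∀ v ∈ D, v < X + 10 * i) →
      (∀ v ∈ S, v < X + 10 * i) → (∀ e ∈ E, ∃ u ∈ e, u < X ∧ u ∈ D) →
      (∀ j < i, (∀ a < 7, X + 10 * j + a ∈ D ∨ ∃ u ∈ D, ad2 X E (X + 10 * j + a) u = true) ∧
        (X + 10 * j + 8 ∈ D ∨ X + 10 * j + 9 ∈ D)) →
      Win (X + 10 * E.length) (ad2 X E) D S := by
    intro k
    induction k with
    | zero =>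
      intro i hi D S _ _ h3 h4
      refine Win.won fun v hv => ?_
      by_cases hx : v < X
      · obtain ⟨e, he, hm⟩ := hc v hx
        obtain ⟨j, hj, rfl⟩ := List.getElem_of_mem he
        rw [← List.getD_eq_getElem _ [] hj] at hm
        rcases (h4 j (by omega)).2 with h | h
        · exact Or.inr ⟨_, h, by simp [ad2, hf_port (a := 8) (by omega) (by omega) hx hm]⟩
        · exact Or.inr ⟨_, h, by simp [ad2, hf_port (a := 9) (by omega) (by omega) hx hm]⟩
      · obtain ⟨j, a, ha, rfl⟩ : ∃ j a, a < 10 ∧ v = X + 10 * j + a :=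
          ⟨(v - X) / 10, (v - X) % 10, by omega, by omega⟩
        have hj : j < E.length := by omega
        by_cases h7 : a < 7
        · exact (h4 j (by omega)).1 a h7
        · obtain ⟨u, b1, b2, b3⟩ := h3 _ (List.getElem_mem hj)
          rw [← List.getD_eq_getElem _ [] hj] at b1
          exact Or.inr ⟨u, b3, by simp [ad2, hf_port ha (by omega) b2 b1]⟩
    | succ k ih =>
      intro i hi D S h1 h2 h3 h4
      refine play (B := X + 10 * i) (by omega) D (fun D' S' d b0 b1 b2 b3 b4 => ?_) _ [] [] D S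
        chk_start subset_rfl (by simp) (fun t ht => ?_) (fun t ht => ?_) (fun v hv => ?_)
        fun v hv => ?_
      · refine ih (i + 1) (by omega) D' S' (fun v hv => by have := b3 v hv; omega)
          (fun v hv => by have := b4 v hv; omega)
          (fun e he => (h3 e he).imp fun u h => ⟨h.1, h.2.1, b0 h.2.2⟩) fun j hj => ?_
        by_cases e : j = i
        · subst e
          simp only [doneB, Bool.and_eq_true, List.all_eq_true, List.mem_range, Bool.or_eq_true,
            List.contains_iff_mem, List.any_eq_true] at b1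
          refine ⟨fun a ha => ?_, b1.2.imp (fun h => (b2 _ h).2) fun h => (b2 _ h).2⟩
          rcases b1.1 a ha with h | ⟨b, h, h'⟩
          · exact Or.inl (b2 _ h).2
          · exact Or.inr ⟨_, (b2 _ h).2, ad2_loc (by omega) (b2 _ h).1 h'⟩
        · obtain ⟨c1, c2⟩ := h4 j (by omega)
          exact ⟨fun a ha => (c1 a ha).imp (fun h => b0 h) fun ⟨u, h, h'⟩ => ⟨u, b0 h, h'⟩,
            c2.imp (fun h => b0 h) fun h => b0 h⟩
      · have := h1 _ ht; omega
      · have := h2 _ ht; omega
      · have := h1 _ hv; omega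
      · have := h2 _ hv; omega
  exact key E.length 0 (by omega) D S (by simpa using h1) (by simpa using h2) h3 (by simp)

theorem hit_edges {N : ℕ} {φ : List PC} (hφ : Bdd N φ) {D : Finset ℕ} {ξ ζ : ℕ → Bool}
    (h : ∀ g < N, Good D g (ξ g) (ζ g)) (hs : ∀ c ∈ φ, CT ξ ζ c) :
    ∀ e ∈ edges N φ, ∃ u ∈ e, u < 4 * N ∧ u ∈ D := by
  intro e he
  rcases mem_edges.1 he with ⟨g, hg, r, -, rfl⟩ | ⟨c, hc, β₁, β₂, β₃, rfl⟩
  · obtain ⟨s, h2, h3, h4⟩ := (h g hg).2 r
    exact ⟨_, mem_tri.2 ⟨s, h2, h3, rfl⟩, by omega, h4⟩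
  · obtain ⟨b1, b2, b3⟩ := hφ c hc
    rcases hs c hc with h2 | h2 | h2
    · obtain ⟨u, h3, h4, h5⟩ := hit_fs (h _ b1) h2 β₁
      exact ⟨u, by simp [h3], by omega, h5⟩
    · obtain ⟨u, h3, h4, h5⟩ := hit_fs (h _ b2) h2 β₂
      exact ⟨u, by simp [h3], by omega, h5⟩
    · obtain ⟨u, h3, h4, h5⟩ := hit_fs (h _ b3) h2 β₃
      exact ⟨u, by simp [h3], by omega, h5⟩

theorem cover_edges (N : ℕ) (φ : List PC) : ∀ x < 4 * N, ∃ e ∈ edges N φ, x ∈ e := by
  intro x hx
  exact ⟨tri (x / 4) ((x + 1) % 4), mem_edges.2 (Or.inl ⟨_, by omega, _, by omega, rfl⟩),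
    mem_tri.2 ⟨x % 4, by omega, by omega, by omega⟩⟩

theorem win_blocks {N n : ℕ} {A : ℕ → ℕ → Bool} {φ : List PC} (hn : 4 * N ≤ n) (h : WForm φ)
    (last : ∀ (D S : Finset ℕ) (ξ ζ : ℕ → Bool), (∀ v ∈ D, v < 4 * N) → (∀ v ∈ S, v < 4 * N) →
      (∀ g < N, Good D g (ξ g) (ζ g)) → (∀ c ∈ φ, CT ξ ζ c) → Win n A D S) : Win n A ∅ ∅ := by
  obtain ⟨τ, hτ, hs⟩ := h
  have key : ∀ (k g : ℕ), g + k = N → ∀ (ζ : ℕ → Bool) (D S : Finset ℕ), (∀ v ∈ D, v < 4 * g) →
      (∀ v ∈ S, v < 4 * g) → (∀ h < g, Good D h (τ ζ h) (ζ h)) → Win n A D S := by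
    intro k
    induction k with
    | zero =>
      intro g hg ζ D S h1 h2 h3
      obtain rfl : g = N := by omega
      exact last D S (τ ζ) ζ h1 h2 h3 (hs ζ)
    | succ k ih =>
      intro g hg ζ D S h1 h2 h3
      have fin : ∀ (a b a' b' : ℕ) (z : Bool), a < 4 → b < 4 → a' < 4 → b' < 4 → a ≠ b →
          (∀ x' z', (x' ≠ τ ζ g ∨ z' ≠ z) → a ∈ Tm x' z' ∨ b ∈ Tm x' z') →
          Win n A (insert (4 * g + b) (insert (4 * g + a) D))
            (insert (4 * g + b') (insert (4 * g + a') S)) := by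
        intro a b a' b' z ha hb ha' hb' hab ht
        refine ih (g + 1) (by omega) (update ζ g z) _ _ ?_ ?_ fun h hh => ?_
        · intro v hv
          simp only [Finset.mem_insert] at hv
          rcases hv with rfl | rfl | hv
          · omega
          · omega
          · have := h1 v hv; omega
        · intro v hv
          simp only [Finset.mem_insert] at hv
          rcases hv with rfl | rfl | hv
          · omega
          · omega
          · have := h2 v hv; omega
        · rw [hτ (update ζ g z) ζ h fun i hi => update_of_ne (by omega) _ _]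
          by_cases e : h = g
          · subst e
            rw [update_self]
            exact good_of (a := a) (b := b) (by simp) (by simp) ha hb hab ht
          · rw [update_of_ne e]
            exact (h3 h (by omega)).mono fun v hv => by simp [hv]
      have leg1 : ∀ a b, a < 4 → b < 4 → a ≠ b → Legal n D S (4 * g + a) (4 * g + b) := by
        intro a b ha hb hab
        refine ⟨by omega, by omega, by omega, fun h => ?_, fun h => ?_, fun h => ?_, fun h => ?_⟩
        · have := h1 _ h; omega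
        · have := h2 _ h; omega
        · have := h1 _ h; omega
        · have := h2 _ h; omega
      have leg2 : ∀ a b a' b', a < 4 → b < 4 → a ≠ b → a ≠ a' → a ≠ b' → b ≠ a' → b ≠ b' →
          Legal n (insert (4 * g + a') D) (insert (4 * g + b') S) (4 * g + a) (4 * g + b) := by
        intro a b a' b' ha hb hab e1 e2 e3 e4
        obtain ⟨l1, l2, l3, l4, l5, l6, l7⟩ := leg1 a b ha hb hab
        refine ⟨l1, l2, l3, ?_, ?_, ?_, ?_⟩ <;> simp only [Finset.mem_insert, not_or] <;>
          exact ⟨by omega, by assumption⟩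
      cases hx : τ ζ g
      · rw [hx] at fin
        refine Win.offer _ _ (leg1 0 2 (by omega) (by omega) (by omega)) ?_ ?_
        · refine Win.offer _ _ (leg2 1 3 0 2 (by omega) (by omega) (by omega) (by omega)
            (by omega) (by omega) (by omega)) ?_ ?_
          · exact fin 0 1 2 3 false (by omega) (by omega) (by omega) (by omega) (by omega)
              (by decide)
          · exact fin 0 3 2 1 false (by omega) (by omega) (by omega) (by omega) (by omega)
              (by decide)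
        · refine Win.offer _ _ (leg2 1 3 2 0 (by omega) (by omega) (by omega) (by omega)
            (by omega) (by omega) (by omega)) ?_ ?_
          · exact fin 2 1 0 3 true (by omega) (by omega) (by omega) (by omega) (by omega)
              (by decide)
          · exact fin 2 3 0 1 true (by omega) (by omega) (by omega) (by omega) (by omega)
              (by decide)
      · rw [hx] at fin
        refine Win.offer _ _ (leg1 0 1 (by omega) (by omega) (by omega)) ?_ ?_
        · refine Win.offer _ _ (leg2 2 3 0 1 (by omega) (by omega) (by omega) (by omega)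
            (by omega) (by omega) (by omega)) ?_ ?_
          · exact fin 0 2 1 3 false (by omega) (by omega) (by omega) (by omega) (by omega)
              (by decide)
          · exact fin 0 3 1 2 false (by omega) (by omega) (by omega) (by omega) (by omega)
              (by decide)
        · refine Win.offer _ _ (leg2 2 3 1 0 (by omega) (by omega) (by omega) (by omega)
            (by omega) (by omega) (by omega)) ?_ ?_
          · exact fin 1 2 0 3 true (by omega) (by omega) (by omega) (by omega) (by omega)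
              (by decide)
          · exact fin 1 3 0 2 true (by omega) (by omega) (by omega) (by omega) (by omega)
              (by decide)
  exact key N 0 (by omega) (fun _ => false) ∅ ∅ (by simp) (by simp) (by simp)

theorem win2 {N : ℕ} {φ : List PC} (hφ : Bdd N φ) (h : WForm φ) :
    Win (4 * N + 10 * (edges N φ).length) (ad2 (4 * N) (edges N φ)) ∅ ∅ :=
  win_blocks (Nat.le_add_right _ _) h fun _ _ _ _ h1 h2 h3 h4 =>
    win_gadgets (cover_edges N φ) h1 h2 (hit_edges hφ h3 h4)

end Pool.Agent.Lib.MP_2d136f_lc.BD
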